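import Pool.Agent.TH705.RR.Fin
set_option autoImplicit false

/-!
# Tubes with a random linear twist of the centres: the expected size

The centre `a i` of the tube with direction `e i` is replaced by `a i + A (e i)` for a random map `A`.
-/

open MeasureTheory Set Metric
open scoped ENNReal NNReal

namespace Pool.Agent.Zk43.TW

open Pool.Agent.TH705.RR

theorem tube_sub_rod {n : ℕ} {δ : ℝ} (b e : E n) : tube δ b e ⊆ Rod b e (1 / 2) δ := by
  intro x hx
  exact ⟨inner ℝ (x - b) e, hx.1, hx.2⟩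

theorem vol_tube {n : ℕ} (hn : 1 ≤ n) {δ : ℝ} (hδ : 0 < δ) (hδ1 : δ < 1) (b : E n) {e : E n}
    (he : ‖e‖ = 1) : volume (tube δ b e) ≤ ENNReal.ofReal (4 * 2 ^ n * vb n * δ ^ (n - 1)) := by
  have hv := vb_pos n
  refine (measure_mono (tube_sub_rod b e)).trans ((vol_rod hn b he (by norm_num) hδ).trans
    (ENNReal.ofReal_le_ofReal ?_))
  have h1 : 2 * (1 / 2 : ℝ) + 3 * δ ≤ 4 := by linarith
  calc 2 ^ n * vb n * (2 * (1 / 2) + 3 * δ) * δ ^ (n - 1) ≤ 2 ^ n * vb n * 4 * δ ^ (n - 1) := by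
        gcongr
    _ = _ := by ring

/-- The inverse normalised angle. -/
noncomputable def yy {n : ℕ} (δ : ℝ) (e e' : E n) : ℝ := max 1 (sn e e' / δ)

theorem one_le_yy {n : ℕ} (δ : ℝ) (e e' : E n) : 1 ≤ yy δ e e' := le_max_left _ _

/-- Two tubes meet in a short piece. -/
theorem vol_inter {n : ℕ} (hn : 1 ≤ n) {δ : ℝ} (hδ : 0 < δ) (hδ1 : δ < 1) (b b' : E n) {e e' : E n}
    (he : ‖e‖ = 1) (he' : ‖e'‖ = 1) : volume (tube δ b e ∩ tube δ b' e') ≤
      ENNReal.ofReal (14 * 4 ^ n * vb n * δ ^ (n - 1) * (yy δ e e')⁻¹) := by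
  have hv := vb_pos n
  rcases le_or_gt (sn e e') δ with h | h
  · have hy : yy δ e e' = 1 := by
      unfold yy
      apply max_eq_left
      rw [div_le_one hδ]
      exact h
    rw [hy, inv_one, mul_one]
    refine (measure_mono inter_subset_left).trans ((vol_tube hn hδ hδ1 b he).trans
      (ENNReal.ofReal_le_ofReal ?_))
    have h2 : (2 : ℝ) ^ n ≤ 4 ^ n := pow_le_pow_left₀ (by norm_num) (by norm_num) n
    gcongr
    norm_num
  · have hS : 0 < sn e e' := by linarith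
    have hy : yy δ e e' = sn e e' / δ := by
      unfold yy
      apply max_eq_right
      rw [le_div_iff₀ hδ]
      linarith
    rw [hy, inv_div]
    rcases (tube δ b e ∩ tube δ b' e').eq_empty_or_nonempty with h0 | ⟨x0, hx0, hx0'⟩
    · rw [h0]; simp
    have hsub : tube δ b e ∩ tube δ b' e' ⊆ Rod x0 e (4 * δ / sn e e') (2 * δ) := by
      rintro x ⟨hx, hx'⟩
      set t := inner ℝ (x - b) e with ht
      set t0 := inner ℝ (x0 - b) e with ht0
      set t' := inner ℝ (x - b') e' with ht'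
      set t0' := inner ℝ (x0 - b') e' with ht0'
      have a1 : ‖(x - b) - t • e‖ ≤ δ := hx.2
      have a2 : ‖(x0 - b) - t0 • e‖ ≤ δ := hx0.2
      have a3 : ‖(x - b') - t' • e'‖ ≤ δ := hx'.2
      have a4 : ‖(x0 - b') - t0' • e'‖ ≤ δ := hx0'.2
      have c1 : ‖x - x0 - (t - t0) • e‖ ≤ 2 * δ := by
        calc ‖x - x0 - (t - t0) • e‖ = ‖((x - b) - t • e) - ((x0 - b) - t0 • e)‖ := by
              congr 1
              rw [sub_smul]
              abel
          _ ≤ _ := norm_sub_le _ _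
          _ ≤ _ := by linarith
      have c2 : ‖x - x0 - (t' - t0') • e'‖ ≤ 2 * δ := by
        calc ‖x - x0 - (t' - t0') • e'‖ = ‖((x - b') - t' • e') - ((x0 - b') - t0' • e')‖ := by
              congr 1
              rw [sub_smul]
              abel
          _ ≤ _ := norm_sub_le _ _
          _ ≤ _ := by linarith
      have c3 : ‖(t' - t0') • e' - (t - t0) • e‖ ≤ 4 * δ := by
        calc ‖(t' - t0') • e' - (t - t0) • e‖ =
              ‖(x - x0 - (t - t0) • e) - (x - x0 - (t' - t0') • e')‖ := by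
              congr 1
              abel
          _ ≤ _ := norm_sub_le _ _
          _ ≤ _ := by linarith
      have c4 := diff_sq he he' (t - t0) (t' - t0')
      have c5 : ((t - t0) * sn e e') ^ 2 ≤ (4 * δ) ^ 2 := by
        have : ‖(t' - t0') • e' - (t - t0) • e‖ ^ 2 ≤ (4 * δ) ^ 2 :=
          pow_le_pow_left₀ (norm_nonneg _) c3 2
        nlinarith [sq_nonneg ((t' - t0') - (t - t0) * inner ℝ e e')]
      have c6 : |(t - t0) * sn e e'| ≤ 4 * δ := abs_le_of_sq_le_sq c5 (by positivity)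
      refine ⟨t - t0, ?_, c1⟩
      rw [le_div_iff₀ hS]
      rwa [abs_mul, abs_of_pos hS] at c6
    refine (measure_mono hsub).trans ((vol_rod hn x0 he (by positivity) (by positivity)).trans
      (ENNReal.ofReal_le_ofReal ?_))
    have hs1 := sn_le_one e e'
    have h3 : 2 * (4 * δ / sn e e') + 3 * (2 * δ) ≤ 14 * (δ / sn e e') := by
      have : δ ≤ δ / sn e e' := by
        rw [le_div_iff₀ hS]
        nlinarith
      have h4 : 2 * (4 * δ / sn e e') = 8 * (δ / sn e e') := by ring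
      rw [h4]
      linarith
    have h5 : (2 * δ) ^ (n - 1) ≤ 2 ^ n * δ ^ (n - 1) := by
      rw [mul_pow]
      gcongr
      · norm_num
      · omega
    calc 2 ^ n * vb n * (2 * (4 * δ / sn e e') + 3 * (2 * δ)) * (2 * δ) ^ (n - 1)
        ≤ 2 ^ n * vb n * (14 * (δ / sn e e')) * (2 ^ n * δ ^ (n - 1)) := by gcongr
      _ = 14 * (2 ^ n * 2 ^ n) * vb n * δ ^ (n - 1) * (δ / sn e e') := by ring
      _ = _ := by rw [← mul_pow]; norm_num

theorem sn_le_dist {n : ℕ} {e e' : E n} (he : ‖e‖ = 1) (he' : ‖e'‖ = 1) : sn e e' ≤ ‖e - e'‖ := by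
  have h := diff_sq he he' 1 1
  rw [one_smul, one_smul, one_mul, one_mul, norm_sub_rev] at h
  exact le_of_sq_le_sq (by nlinarith [sq_nonneg (1 - inner ℝ e e')]) (norm_nonneg _)

/-- The event that the tubes `i`, `j` may meet after the twist by `A`. -/
def Ev {n : ℕ} {Ω : Type} (A : Ω → E n → E n) (δ : ℝ) (a a' e e' : E n) : Set Ω :=
  {ω | ∃ c d : ℝ, ‖(A ω e - A ω e') - (a' - a) - c • e - d • e'‖ ≤ 2 * δ}

theorem mem_ev {n : ℕ} {Ω : Type} {A : Ω → E n → E n} {δ : ℝ} {a a' e e' : E n} {ω : Ω}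
    (h : (tube δ (a + A ω e) e ∩ tube δ (a' + A ω e') e').Nonempty) : ω ∈ Ev A δ a a' e e' := by
  obtain ⟨x, hx, hx'⟩ := h
  set t := inner ℝ (x - (a + A ω e)) e with ht
  set t' := inner ℝ (x - (a' + A ω e')) e' with ht'
  have a1 : ‖(x - (a + A ω e)) - t • e‖ ≤ δ := hx.2
  have a2 : ‖(x - (a' + A ω e')) - t' • e'‖ ≤ δ := hx'.2
  refine ⟨-t, t', ?_⟩
  calc ‖(A ω e - A ω e') - (a' - a) - (-t) • e - t' • e'‖ =
        ‖((x - (a' + A ω e')) - t' • e') - ((x - (a + A ω e)) - t • e)‖ := by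
        congr 1
        rw [neg_smul]
        abel
    _ ≤ _ := norm_sub_le _ _
    _ ≤ _ := by linarith

theorem ev_self {n : ℕ} {Ω : Type} {A : Ω → E n → E n} {δ : ℝ} (hδ : 0 < δ) {a e : E n} (ω : Ω) :
    ω ∈ Ev A δ a a e e := by
  refine ⟨0, 0, ?_⟩
  simp
  positivity

/-- The spreading condition for a random map on a set `D` of directions. -/
def Spread {n : ℕ} {Ω : Type} [MeasurableSpace Ω] (P : Measure Ω) (A : Ω → E n → E n)
    (D : Set (E n)) (K s : ℝ) : Prop :=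
  ∀ e ∈ D, ∀ e' ∈ D, e ≠ e' → ∀ (y : E n) (r : ℝ), 0 < r →
    P {ω | ∃ c d : ℝ, ‖(A ω e - A ω e') - y - c • e - d • e'‖ ≤ r * ‖e - e'‖} ≤
      ENNReal.ofReal (K * r ^ s)

theorem prob_ev {n : ℕ} {Ω : Type} [MeasurableSpace Ω] {P : Measure Ω} [IsProbabilityMeasure P]
    {A : Ω → E n → E n} {D : Set (E n)} {K s : ℝ} (hs : 0 ≤ s) (hK : 0 ≤ K)
    (hsp : Spread P A D K s) {δ : ℝ} (hδ : 0 < δ) {ι : Type} (a e : ι → E n) (heD : ∀ i, e i ∈ D)
    (he : ∀ i, ‖e i‖ = 1) (hsep : ∀ i j, i ≠ j → δ ≤ ‖e i - e j‖) (i j : ι) :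
    P (Ev A δ (a i) (a j) (e i) (e j)) ≤ ENNReal.ofReal ((1 + K * 2 ^ s) * (yy δ (e i) (e j)) ^ (-s)) := by
  have hy1 := one_le_yy δ (e i) (e j)
  have hy0 : 0 < yy δ (e i) (e j) := by linarith
  by_cases hij : i = j
  · subst hij
    have hy : yy δ (e i) (e i) = 1 := by
      unfold yy sn
      rw [real_inner_self_eq_norm_sq, he]
      simp
    rw [hy, Real.one_rpow, mul_one]
    refine prob_le_one.trans ?_
    rw [← ENNReal.ofReal_one]
    apply ENNReal.ofReal_le_ofReal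
    have : 0 ≤ K * 2 ^ s := by positivity
    linarith
  · have hd := hsep i j hij
    have hd0 : 0 < ‖e i - e j‖ := by linarith
    have hne : e i ≠ e j := by
      intro h
      rw [h, sub_self, norm_zero] at hd0
      exact lt_irrefl _ hd0
    have h1 := hsp (e i) (heD i) (e j) (heD j) hne (a j - a i) (2 * δ / ‖e i - e j‖) (by positivity)
    rw [div_mul_cancel₀ _ hd0.ne'] at h1
    refine h1.trans (ENNReal.ofReal_le_ofReal ?_)
    have h2 : yy δ (e i) (e j) ≤ ‖e i - e j‖ / δ := by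
      unfold yy
      apply max_le
      · rw [le_div_iff₀ hδ]; linarith
      · gcongr
        exact sn_le_dist (he i) (he j)
    have h3 : (2 * δ / ‖e i - e j‖) ^ s ≤ 2 ^ s * (yy δ (e i) (e j)) ^ (-s) := by
      rw [Real.rpow_neg hy0.le, ← Real.inv_rpow hy0.le, ← Real.mul_rpow (by norm_num) (by positivity)]
      apply Real.rpow_le_rpow (by positivity) _ hs
      rw [mul_div_assoc]
      gcongr
      rw [le_inv_comm₀ (by positivity) hy0, inv_div]
      exact h2
    calc K * (2 * δ / ‖e i - e j‖) ^ s ≤ K * (2 ^ s * (yy δ (e i) (e j)) ^ (-s)) := by gcongr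
      _ ≤ _ := by
          have : 0 ≤ (yy δ (e i) (e j)) ^ (-s) := by positivity
          nlinarith

end Pool.Agent.Zk43.TW
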