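import Pool.Agent.Zk43.TW.ExN
set_option autoImplicit false

/-!
# Random matrices with independent entries as twists: neighbourhoods of planes
-/

open MeasureTheory Set Metric
open scoped ENNReal NNReal

namespace Pool.Agent.Zk43.TW

open Pool.Agent.TH705.RR

/-- Coordinates in the plane of two unit vectors. -/
theorem plane {n : ℕ} {e e' : E n} (he : ‖e‖ = 1) (he' : ‖e'‖ = 1) :
    ∃ f : E n, ‖f‖ ≤ 1 ∧ ∀ c d : ℝ, ∃ x y : ℝ, c • e + d • e' = x • e + y • f ∧
      |x| ≤ ‖c • e + d • e'‖ ∧ |y| ≤ ‖c • e + d • e'‖ := by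
  have hp := perp_norm he he'
  set γ := inner ℝ e e' with hγ
  have hns : ∀ c d : ℝ, ‖c • e + d • e'‖ ^ 2 = (c + d * γ) ^ 2 + (d * sn e e') ^ 2 := by
    intro c d
    have h := diff_sq he' he (-d) c
    have h1 : c • e - (-d) • e' = c • e + d • e' := by
      rw [neg_smul, sub_neg_eq_add]
    rw [h1] at h
    rw [h, sn_comm e' e, real_inner_comm e e', ← hγ]
    ring
  rcases (sn_nonneg e e').eq_or_lt with h0 | h0
  · refine ⟨0, by simp, ?_⟩
    intro c d
    have h1 : e' - γ • e = 0 := by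
      rw [← norm_eq_zero, hp, ← h0]
    have h2 : e' = γ • e := sub_eq_zero.1 h1
    refine ⟨c + d * γ, 0, ?_, ?_, by simp⟩
    · rw [zero_smul, add_zero, add_smul]
      congr 1
      nth_rewrite 1 [h2]
      rw [smul_smul]
    · apply abs_le_of_sq_le_sq _ (norm_nonneg _) 
      rw [hns]
      nlinarith [sq_nonneg (d * sn e e')]
  · refine ⟨(sn e e')⁻¹ • (e' - γ • e), ?_, ?_⟩
    · rw [norm_smul, hp, Real.norm_eq_abs, abs_of_pos (by positivity), inv_mul_cancel₀ h0.ne']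
    · intro c d
      refine ⟨c + d * γ, d * sn e e', ?_, ?_, ?_⟩
      · rw [smul_smul, mul_assoc, mul_inv_cancel₀ h0.ne', mul_one, smul_sub, smul_smul, add_smul]
        abel
      · apply abs_le_of_sq_le_sq _ (norm_nonneg _) 
        rw [hns]
        nlinarith [sq_nonneg (d * sn e e')]
      · apply abs_le_of_sq_le_sq _ (norm_nonneg _) 
        rw [hns]
        nlinarith [sq_nonneg (c + d * γ)]

theorem floor_close {r x L : ℝ} (hr : 0 < r) (hx : |x| ≤ L) :
    ⌊x / r⌋ ∈ Finset.Icc (-((⌈L / r⌉₊ : ℕ) : ℤ)) (⌈L / r⌉₊ : ℕ) ∧ |x - (⌊x / r⌋ : ℝ) * r| ≤ r := by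
  have hfl := Int.floor_le (x / r)
  have hfl2 := Int.lt_floor_add_one (x / r)
  have hL : L / r ≤ (⌈L / r⌉₊ : ℝ) := Nat.le_ceil _
  obtain ⟨hx1, hx2⟩ := abs_le.1 hx
  set k : ℤ := ⌊x / r⌋ with hk
  have e1 : x = x / r * r := by field_simp
  refine ⟨?_, ?_⟩
  · rw [Finset.mem_Icc]
    constructor
    · have h1 : -(L / r) ≤ x / r := by
        rw [← neg_div]
        gcongr
      rw [hk, Int.le_floor]
      push_cast
      linarith
    · have h1 : x / r ≤ L / r := by gcongr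
      have h2 : (k : ℝ) ≤ ((⌈L / r⌉₊ : ℕ) : ℝ) := by linarith
      exact_mod_cast h2
  · rw [abs_le]
    constructor
    · nlinarith
    · nlinarith

theorem spread_mat {n : ℕ} (hn : 3 ≤ n) (μ : Fin n → Fin n → Measure ℝ)
    [∀ k j, IsProbabilityMeasure (μ k j)] {K R : ℝ} (hK : 0 ≤ K) (hR : 0 ≤ R)
    (hμ : ∀ k j, ∀ x r : ℝ, 0 < r → μ k j {t | |t - x| ≤ r} ≤ ENNReal.ofReal (K * r))
    (hsupp : ∀ k j, μ k j {t | ¬ |t| ≤ R} = 0) :
    Spread (Measure.pi (fun k => Measure.pi (fun j => μ k j))) (fun ω v => lin ω v)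
      {e : E n | ‖e‖ = 1} (1 + (4 * (R * n ^ 2) + 7) ^ 2 * (K * (n * 3)) ^ n) ((n : ℝ) - 2) := by
  rintro e he e' he' hne y r hr
  rw [mem_ofPred_eq] at he he'
  simp_rw [← map_sub]
  set P : Measure (Fin n → Fin n → ℝ) := Measure.pi (fun k => Measure.pi (fun j => μ k j)) with hP
  set ρ := ‖e - e'‖ with hρ
  have hρ0 : 0 < ρ := norm_pos_iff.2 (sub_ne_zero.2 hne)
  set B : ℝ := R * n ^ 2 with hB
  have hB0 : 0 ≤ B := by positivity
  have hn3 : (3 : ℝ) ≤ n := by exact_mod_cast hn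
  have hC0 : 0 ≤ (4 * B + 7) ^ 2 * (K * (n * 3)) ^ n := by positivity
  rcases le_or_gt 1 r with hr1 | hr1
  · refine prob_le_one.trans ?_
    rw [← ENNReal.ofReal_one]
    apply ENNReal.ofReal_le_ofReal
    have h1 : 1 ≤ r ^ ((n : ℝ) - 2) := Real.one_le_rpow hr1 (by linarith)
    nlinarith
  -- the unit vector
  set u : E n := ρ⁻¹ • (e - e') with hu
  have hu1 : ‖u‖ = 1 := by
    rw [hu, norm_smul, Real.norm_eq_abs, abs_of_pos (by positivity), ← hρ, inv_mul_cancel₀ hρ0.ne']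
  set y' : E n := ρ⁻¹ • y with hy'
  -- entries are bounded almost surely
  set Z : Set (Fin n → Fin n → ℝ) := {ω | ∀ k j, |ω k j| ≤ R} with hZ
  have hZ0 : P Zᶜ = 0 := by
    have h1 : Zᶜ ⊆ ⋃ k, ⋃ j, {ω : Fin n → Fin n → ℝ | ¬ |ω k j| ≤ R} := by
      intro ω hω
      rw [hZ, mem_compl_iff, mem_ofPred_eq] at hω
      push Not at hω
      obtain ⟨k, j, h⟩ := hω
      exact mem_iUnion.2 ⟨k, mem_iUnion.2 ⟨j, not_le.2 h⟩⟩
    refine measure_mono_null h1 ?_
    rw [measure_iUnion_null_iff]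
    intro k
    rw [measure_iUnion_null_iff]
    intro j
    have h2 : {ω : Fin n → Fin n → ℝ | ¬ |ω k j| ≤ R} =
        (fun ω => ω k) ⁻¹' ((fun x : Fin n → ℝ => x j) ⁻¹' {t | ¬ |t| ≤ R}) := rfl
    have hm : MeasurableSet {t : ℝ | ¬ |t| ≤ R} :=
      (measurableSet_le measurable_id.abs measurable_const).compl
    rw [h2, hP, (measurePreserving_eval (fun k => Measure.pi (fun j => μ k j)) k).measure_preimage
      ((measurable_pi_apply j) hm).nullMeasurableSet,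
      (measurePreserving_eval (fun j => μ k j) j).measure_preimage hm.nullMeasurableSet]
    exact hsupp k j
  have hbd : ∀ ω ∈ Z, ‖lin ω u‖ ≤ B := by
    intro ω hω
    have := lin_bound hR hω u
    rwa [hu1, mul_one] at this
  -- the event in normalised form
  have hnorm : ∀ ω : Fin n → Fin n → ℝ, (∃ c d : ℝ, ‖lin ω (e - e') - y - c • e - d • e'‖ ≤ r * ρ) →
      ∃ c d : ℝ, ‖lin ω u - (y' + (c • e + d • e'))‖ ≤ r := by
    rintro ω ⟨c, d, h⟩
    refine ⟨ρ⁻¹ * c, ρ⁻¹ * d, ?_⟩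
    have h1 : lin ω u - (y' + ((ρ⁻¹ * c) • e + (ρ⁻¹ * d) • e')) =
        ρ⁻¹ • (lin ω (e - e') - y - c • e - d • e') := by
      rw [hu, hy', map_smul, smul_sub, smul_sub, smul_sub, smul_smul, smul_smul]
      abel
    rw [h1, norm_smul, Real.norm_eq_abs, abs_of_pos (by positivity), inv_mul_le_iff₀ hρ0]
    linarith
  by_cases hex : ∃ ω0 ∈ Z, ∃ c d : ℝ, ‖lin ω0 u - (y' + (c • e + d • e'))‖ ≤ r
  swap
  · push Not at hex
    have h1 : {ω : Fin n → Fin n → ℝ | ∃ c d : ℝ, ‖lin ω (e - e') - y - c • e - d • e'‖ ≤ r * ρ} ⊆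
        Zᶜ := by
      intro ω hω hωZ
      obtain ⟨c, d, h⟩ := hnorm ω hω
      exact absurd h (not_le.2 (hex ω hωZ c d))
    rw [measure_mono_null h1 hZ0]
    exact zero_le
  obtain ⟨ω0, hω0, c0, d0, h0⟩ := hex
  set p0 := y' + (c0 • e + d0 • e') with hp0
  have hp0n : ‖p0‖ ≤ B + 1 := by
    calc ‖p0‖ = ‖lin ω0 u - (lin ω0 u - p0)‖ := by congr 1; abel
      _ ≤ ‖lin ω0 u‖ + ‖lin ω0 u - p0‖ := norm_sub_le _ _
      _ ≤ _ := by
          have := hbd ω0 hω0
          linarith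
  obtain ⟨f, hf, hpl⟩ := plane he he'
  set M : ℕ := ⌈(2 * (B + 1)) / r⌉₊ with hM
  set I : Finset ℤ := Finset.Icc (-(M : ℤ)) M with hI
  have hcov : {ω : Fin n → Fin n → ℝ | ∃ c d : ℝ, ‖lin ω (e - e') - y - c • e - d • e'‖ ≤ r * ρ} ⊆
      Zᶜ ∪ ⋃ k ∈ I ×ˢ I, {ω | ‖lin ω u - (p0 + ((k.1 : ℝ) * r) • e + ((k.2 : ℝ) * r) • f)‖ ≤ 3 * r} := by
    intro ω hω
    by_cases hωZ : ω ∈ Z
    swap
    · exact Or.inl hωZ
    right
    obtain ⟨c, d, h⟩ := hnorm ω hω
    have hp : ‖y' + (c • e + d • e')‖ ≤ B + 1 := by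
      calc ‖y' + (c • e + d • e')‖ = ‖lin ω u - (lin ω u - (y' + (c • e + d • e')))‖ := by
            congr 1; abel
        _ ≤ ‖lin ω u‖ + ‖lin ω u - (y' + (c • e + d • e'))‖ := norm_sub_le _ _
        _ ≤ _ := by
            have := hbd ω hωZ
            linarith
    obtain ⟨x1, x2, hx, hx1, hx2⟩ := hpl (c - c0) (d - d0)
    have hdiff : (c - c0) • e + (d - d0) • e' = (y' + (c • e + d • e')) - p0 := by
      rw [hp0, sub_smul, sub_smul]
      abel
    have hlen : ‖(c - c0) • e + (d - d0) • e'‖ ≤ 2 * (B + 1) := by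
      rw [hdiff]
      exact (norm_sub_le _ _).trans (by linarith)
    obtain ⟨hk1, hk1'⟩ := floor_close hr (hx1.trans hlen)
    obtain ⟨hk2, hk2'⟩ := floor_close hr (hx2.trans hlen)
    rw [mem_iUnion₂]
    refine ⟨(⌊x1 / r⌋, ⌊x2 / r⌋), Finset.mem_product.2 ⟨hk1, hk2⟩, ?_⟩
    rw [mem_ofPred_eq]
    dsimp only
    have h2 : lin ω u - (p0 + ((⌊x1 / r⌋ : ℝ) * r) • e + ((⌊x2 / r⌋ : ℝ) * r) • f) =
        (lin ω u - (y' + (c • e + d • e'))) + ((x1 - (⌊x1 / r⌋ : ℝ) * r) • e +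
          (x2 - (⌊x2 / r⌋ : ℝ) * r) • f) := by
      have h3 : y' + (c • e + d • e') = p0 + (x1 • e + x2 • f) := by
        rw [← hx, hdiff]
        abel
      rw [h3, sub_smul, sub_smul]
      abel
    rw [h2]
    calc _ ≤ ‖lin ω u - (y' + (c • e + d • e'))‖ + ‖(x1 - (⌊x1 / r⌋ : ℝ) * r) • e +
          (x2 - (⌊x2 / r⌋ : ℝ) * r) • f‖ := norm_add_le _ _
      _ ≤ r + (‖(x1 - (⌊x1 / r⌋ : ℝ) * r) • e‖ + ‖(x2 - (⌊x2 / r⌋ : ℝ) * r) • f‖) := by
          gcongr
          exact norm_add_le _ _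
      _ ≤ r + (r + r) := by
          gcongr
          · rw [norm_smul, he, mul_one]
            exact hk1'
          · rw [norm_smul]
            calc _ ≤ r * 1 := by
                  gcongr
                  exact hk2'
              _ = r := mul_one r
      _ = _ := by ring
  refine (measure_mono hcov).trans ((measure_union_le _ _).trans ?_)
  rw [hZ0, zero_add]
  calc _ ≤ ∑ k ∈ I ×ˢ I, P {ω | ‖lin ω u - (p0 + ((k.1 : ℝ) * r) • e + ((k.2 : ℝ) * r) • f)‖ ≤
        3 * r} := measure_biUnion_finset_le _ _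
    _ ≤ ∑ _k ∈ I ×ˢ I, ENNReal.ofReal ((K * (n * (3 * r))) ^ n) := by
        apply Finset.sum_le_sum
        intro k _
        exact small_ball μ hK hμ hu1 _ (by positivity)
    _ = ENNReal.ofReal (((2 * M + 1 : ℕ) : ℝ) ^ 2 * (K * (n * (3 * r))) ^ n) := by
        rw [Finset.sum_const, nsmul_eq_mul, Finset.card_product, hI, Int.card_Icc]
        have h3 : ((M : ℤ) + 1 - -(M : ℤ)).toNat = 2 * M + 1 := by omega
        rw [h3, ENNReal.ofReal_mul (by positivity), ← ENNReal.ofReal_natCast]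
        congr 2
        push_cast
        ring
    _ ≤ _ := by
        apply ENNReal.ofReal_le_ofReal
        have hMr : (M : ℝ) < 2 * (B + 1) / r + 1 := Nat.ceil_lt_add_one (by positivity)
        have h4 : ((2 * M + 1 : ℕ) : ℝ) ≤ (4 * B + 7) / r := by
          push_cast
          rw [le_div_iff₀ hr]
          have h5 : 2 * (B + 1) / r * r = 2 * (B + 1) := by field_simp
          nlinarith
        have h6 : r ^ n / r ^ 2 = r ^ ((n : ℝ) - 2) := by
          rw [Real.rpow_sub hr, Real.rpow_natCast]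
          norm_num
        calc ((2 * M + 1 : ℕ) : ℝ) ^ 2 * (K * (n * (3 * r))) ^ n ≤
              ((4 * B + 7) / r) ^ 2 * (K * (n * (3 * r))) ^ n := by gcongr
          _ = (4 * B + 7) ^ 2 * (K * (n * 3)) ^ n * (r ^ n / r ^ 2) := by
              have : K * (n * (3 * r)) = (K * (n * 3)) * r := by ring
              rw [this, mul_pow (K * (n * 3)) r n, div_pow]
              ring
          _ = (4 * B + 7) ^ 2 * (K * (n * 3)) ^ n * r ^ ((n : ℝ) - 2) := by rw [h6]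
          _ ≤ _ := by
              have : 0 ≤ r ^ ((n : ℝ) - 2) := by positivity
              nlinarith

end Pool.Agent.Zk43.TW
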