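import Pool.Agent.Zk43.TW.Core
set_option autoImplicit false

/-!
# The one-parameter twist in three dimensions
-/

open MeasureTheory Set Metric
open scoped ENNReal NNReal

namespace Pool.Agent.Zk43.TW

open Pool.Agent.TH705.RR

/-- The quarter turn in the horizontal plane, `(x, y, z) ↦ (-y, x, 0)`. -/
noncomputable def turn : E 3 →ₗ[ℝ] E 3 where
  toFun u := WithLp.toLp 2 ![-u 1, u 0, 0]
  map_add' u v := by
    ext i
    fin_cases i <;> simp
    ring
  map_smul' c u := by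
    ext i
    fin_cases i <;> simp

/-- The cross product. -/
noncomputable def cr (e e' : E 3) : E 3 :=
  WithLp.toLp 2 ![e 1 * e' 2 - e 2 * e' 1, e 2 * e' 0 - e 0 * e' 2, e 0 * e' 1 - e 1 * e' 0]

theorem spread_turn {Ω : Type} [MeasurableSpace Ω] {P : Measure Ω} {α : Ω → ℝ} {K s κ : ℝ}
    (hs : 0 ≤ s) (hK : 0 ≤ K) (hκ : 0 < κ)
    (hα : ∀ x r : ℝ, 0 < r → P {ω | |α ω - x| ≤ r} ≤ ENNReal.ofReal (K * r ^ s)) :
    Spread P (fun ω v => α ω • turn v) {e : E 3 | ‖e‖ = 1 ∧ κ ≤ e 2} (K * (1 / κ) ^ s) s := by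
  rintro e ⟨he, hκe⟩ e' ⟨he', hκe'⟩ hne y r hr
  have hlin : ∀ ω, α ω • turn e - α ω • turn e' = (α ω • turn) (e - e') := by
    intro ω
    rw [LinearMap.smul_apply, map_sub, smul_sub]
  simp_rw [hlin]
  set w := cr e e' with hw
  have hee : e 0 * e 0 + e 1 * e 1 + e 2 * e 2 = 1 := by
    have := EuclideanSpace.norm_sq_eq e
    rw [he, Fin.sum_univ_three] at this
    simp only [Real.norm_eq_abs, sq_abs] at this
    linarith
  have hee' : e' 0 * e' 0 + e' 1 * e' 1 + e' 2 * e' 2 = 1 := by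
    have := EuclideanSpace.norm_sq_eq e'
    rw [he', Fin.sum_univ_three] at this
    simp only [Real.norm_eq_abs, sq_abs] at this
    linarith
  set ρ := ‖e - e'‖ with hρ
  have hρ0 : 0 < ρ := norm_pos_iff.2 (sub_ne_zero.2 hne)
  have hρ2 : ρ ^ 2 = (e 0 - e' 0) ^ 2 + (e 1 - e' 1) ^ 2 + (e 2 - e' 2) ^ 2 := by
    rw [hρ, EuclideanSpace.norm_sq_eq, Fin.sum_univ_three]
    simp [Real.norm_eq_abs, sq_abs]
  have hw2 : ‖w‖ ^ 2 = (e 1 * e' 2 - e 2 * e' 1) ^ 2 + (e 2 * e' 0 - e 0 * e' 2) ^ 2 +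
      (e 0 * e' 1 - e 1 * e' 0) ^ 2 := by
    rw [EuclideanSpace.norm_sq_eq, Fin.sum_univ_three]
    simp [hw, cr, Real.norm_eq_abs, sq_abs]
  have hp : ρ ^ 2 = 2 - 2 * (e 0 * e' 0 + e 1 * e' 1 + e 2 * e' 2) := by
    rw [hρ2]
    linear_combination hee + hee'
  have hwρ : ‖w‖ ≤ ρ := by
    apply le_of_sq_le_sq _ hρ0.le
    rw [hw2, hp]
    have : (e 1 * e' 2 - e 2 * e' 1) ^ 2 + (e 2 * e' 0 - e 0 * e' 2) ^ 2 +
      (e 0 * e' 1 - e 1 * e' 0) ^ 2 = 1 - (e 0 * e' 0 + e 1 * e' 1 + e 2 * e' 2) ^ 2 := by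
      have h1 : (e 1 * e' 2 - e 2 * e' 1) ^ 2 + (e 2 * e' 0 - e 0 * e' 2) ^ 2 +
          (e 0 * e' 1 - e 1 * e' 0) ^ 2 = (e 0 * e 0 + e 1 * e 1 + e 2 * e 2) *
          (e' 0 * e' 0 + e' 1 * e' 1 + e' 2 * e' 2) - (e 0 * e' 0 + e 1 * e' 1 + e 2 * e' 2) ^ 2 := by
        ring
      rw [h1, hee, hee']
      ring
    rw [this]
    nlinarith [sq_nonneg (e 0 * e' 0 + e 1 * e' 1 + e 2 * e' 2 - 1)]
  set g := (e 2 + e' 2) * ρ ^ 2 / 2 with hg
  have hg1 : κ * ρ ^ 2 ≤ g := by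
    rw [hg]
    have : 0 ≤ ρ ^ 2 := by positivity
    nlinarith
  have hg0 : 0 < g := lt_of_lt_of_le (by positivity) hg1
  have hsub : {ω | ∃ c d : ℝ, ‖(α ω • turn) (e - e') - y - c • e - d • e'‖ ≤ r * ρ} ⊆
      {ω | |α ω - (-(inner ℝ y w) / g)| ≤ r / κ} := by
    rintro ω ⟨c, d, h⟩
    have h1 : inner ℝ ((α ω • turn) (e - e') - y - c • e - d • e') w =
        -(α ω * g) - inner ℝ y w := by
      have h2 : inner ℝ ((α ω • turn) (e - e')) w = -(α ω * g) := by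
        rw [hg, hp]
        simp [PiLp.inner_apply, Fin.sum_univ_three, turn, hw, cr]
        linear_combination (α ω) * (-e' 2) * hee + (α ω) * (-e 2) * hee'
      have h3 : inner ℝ e w = 0 := by
        simp [PiLp.inner_apply, Fin.sum_univ_three, hw, cr]
        ring
      have h4 : inner ℝ e' w = 0 := by
        simp [PiLp.inner_apply, Fin.sum_univ_three, hw, cr]
        ring
      rw [inner_sub_left, inner_sub_left, inner_sub_left, inner_smul_left, inner_smul_left, h2, h3, h4]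
      simp
    have h5 := abs_real_inner_le_norm ((α ω • turn) (e - e') - y - c • e - d • e') w
    rw [h1] at h5
    have h6 : |α ω * g + inner ℝ y w| ≤ r * ρ ^ 2 := by
      calc |α ω * g + inner ℝ y w| = |-(α ω * g) - inner ℝ y w| := by
            rw [← abs_neg]; congr 1; ring
        _ ≤ _ := h5
        _ ≤ (r * ρ) * ρ := by gcongr
        _ = _ := by ring
    rw [mem_ofPred_eq]
    have h7 : α ω - (-(inner ℝ y w) / g) = (α ω * g + inner ℝ y w) / g := by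
      field_simp
      ring
    rw [h7, abs_div, abs_of_pos hg0, div_le_div_iff₀ hg0 hκ]
    calc |α ω * g + inner ℝ y w| * κ ≤ (r * ρ ^ 2) * κ := by gcongr
      _ = r * (κ * ρ ^ 2) := by ring
      _ ≤ r * g := by gcongr
  refine (measure_mono hsub).trans ((hα _ _ (by positivity)).trans (le_of_eq ?_))
  congr 1
  rw [div_eq_mul_one_div, Real.mul_rpow hr.le (by positivity)]
  ring

end Pool.Agent.Zk43.TW
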