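import Pool.Agent.Zk43.TW.Core
set_option autoImplicit false

/-!
# Random matrices with independent entries as twists
-/

open MeasureTheory Set Metric
open scoped ENNReal NNReal

namespace Pool.Agent.Zk43.TW

open Pool.Agent.TH705.RR

/-- The linear map with the matrix `ω`. -/
noncomputable def lin {n : ℕ} (ω : Fin n → Fin n → ℝ) : E n →ₗ[ℝ] E n :=
  Matrix.toEuclideanLin (Matrix.of ω)

theorem lin_apply {n : ℕ} (ω : Fin n → Fin n → ℝ) (u : E n) (k : Fin n) :
    lin ω u k = ∑ j, ω k j * u j := by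
  unfold lin
  rw [Matrix.toLpLin_apply]
  simp [Matrix.mulVec, dotProduct]

/-- A linear form of independent variables, one of which is spread. -/
theorem row {n : ℕ} (ν : Fin n → Measure ℝ) [∀ j, IsProbabilityMeasure (ν j)] {K : ℝ}
    (hν : ∀ j, ∀ x r : ℝ, 0 < r → ν j {t | |t - x| ≤ r} ≤ ENNReal.ofReal (K * r)) (v : Fin n → ℝ)
    (j0 : Fin n) (hv : v j0 ≠ 0) (z : ℝ) {t : ℝ} (ht : 0 < t) :
    Measure.pi ν {x : Fin n → ℝ | |∑ j, x j * v j - z| ≤ t} ≤ ENNReal.ofReal (K * (t / |v j0|)) := by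
  obtain ⟨m, rfl⟩ : ∃ m, n = m + 1 := ⟨n - 1, by have := j0.pos; omega⟩
  set S : Set (Fin (m + 1) → ℝ) := {x | |∑ j, x j * v j - z| ≤ t} with hS
  have hSm : MeasurableSet S := by
    apply measurableSet_le _ measurable_const
    have : Measurable (fun x : Fin (m + 1) → ℝ => ∑ j, x j * v j) :=
      Finset.measurable_sum _ (fun j _ => (measurable_pi_apply j).mul_const _)
    exact (this.sub_const z).abs
  have hmp := (measurePreserving_piFinSuccAbove ν j0).symm
  have h1 := hmp.measure_preimage hSm.nullMeasurableSet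
  rw [← h1, Measure.prod_apply_symm (hmp.measurable hSm)]
  have hv0 : 0 < |v j0| := abs_pos.2 hv
  calc _ ≤ ∫⁻ _y, ENNReal.ofReal (K * (t / |v j0|)) ∂(Measure.pi fun j => ν (j0.succAbove j)) := by
        apply lintegral_mono
        intro y
        refine le_trans (measure_mono ?_) (hν j0 ((z - ∑ j, y j * v (j0.succAbove j)) / v j0)
          (t / |v j0|) (by positivity))
        intro x hx
        have h2 : |∑ j, (j0.insertNth x y : Fin (m + 1) → ℝ) j * v j - z| ≤ t := hx
        rw [Fin.sum_univ_succAbove _ j0] at h2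
        simp only [Fin.insertNth_apply_same, Fin.insertNth_apply_succAbove] at h2
        rw [mem_ofPred_eq, le_div_iff₀ hv0, ← abs_mul]
        have h3 : (x - (z - ∑ j, y j * v (j0.succAbove j)) / v j0) * v j0 =
            x * v j0 + ∑ j, y j * v (j0.succAbove j) - z := by
          field_simp
          ring
        rw [h3]
        exact h2
    _ = _ := by rw [lintegral_const, measure_univ, mul_one]

/-- The law of the image of a unit vector has a bounded density. -/
theorem small_ball {n : ℕ} (μ : Fin n → Fin n → Measure ℝ) [∀ k j, IsProbabilityMeasure (μ k j)]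
    {K : ℝ} (hK : 0 ≤ K)
    (hμ : ∀ k j, ∀ x r : ℝ, 0 < r → μ k j {t | |t - x| ≤ r} ≤ ENNReal.ofReal (K * r)) {u : E n}
    (hu : ‖u‖ = 1) (p : E n) {t : ℝ} (ht : 0 < t) :
    Measure.pi (fun k => Measure.pi (fun j => μ k j)) {ω | ‖lin ω u - p‖ ≤ t} ≤
      ENNReal.ofReal ((K * (n * t)) ^ n) := by
  have hu2 : ∑ j, u j ^ 2 = 1 := by
    have := EuclideanSpace.norm_sq_eq u
    rw [hu] at this
    simp only [Real.norm_eq_abs, sq_abs] at this
    linarith
  obtain ⟨j0, hj0⟩ : ∃ j0, 1 ≤ n * |u j0| := by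
    by_contra hcon
    push Not at hcon
    rcases Nat.eq_zero_or_pos n with h0 | h0
    · subst h0
      simp at hu2
    have hn : (0 : ℝ) < n := by exact_mod_cast h0
    have h1 : ∀ j, u j ^ 2 < 1 / n := by
      intro j
      have h2 := hcon j
      have h3 : |u j| < 1 / n := by
        rw [lt_div_iff₀ hn]; linarith
      have h4 : 1 / (n : ℝ) ≤ 1 := by
        rw [div_le_one hn]
        exact_mod_cast h0
      rw [← sq_abs]
      nlinarith [abs_nonneg (u j)]
    have h5 : ∑ j, u j ^ 2 < ∑ _j : Fin n, 1 / (n : ℝ) := by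
      apply Finset.sum_lt_sum_of_nonempty
      · exact ⟨⟨0, h0⟩, Finset.mem_univ _⟩
      · intro j _
        exact h1 j
    rw [hu2, Finset.sum_const, Finset.card_univ, Fintype.card_fin, nsmul_eq_mul,
      mul_one_div_cancel hn.ne'] at h5
    exact lt_irrefl _ h5
  have hn0 : (0 : ℝ) < n := by
    rcases Nat.eq_zero_or_pos n with h0 | h0
    · subst h0
      simp at hj0
      linarith
    · exact_mod_cast h0
  have hv : u j0 ≠ 0 := by
    intro h
    rw [h, abs_zero, mul_zero] at hj0
    linarith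
  have hv0 : 0 < |u j0| := abs_pos.2 hv
  have hsub : {ω : Fin n → Fin n → ℝ | ‖lin ω u - p‖ ≤ t} ⊆
      Set.pi univ (fun k => {x : Fin n → ℝ | |∑ j, x j * u j - p k| ≤ t}) := by
    intro ω hω k _
    rw [mem_ofPred_eq] at hω ⊢
    rw [← lin_apply]
    refine le_trans ?_ hω
    have := EuclideanSpace.norm_eq (lin ω u - p)
    have h1 := PiLp.norm_apply_le (lin ω u - p) k
    simpa using h1
  refine (measure_mono hsub).trans ?_
  rw [Measure.pi_pi]
  calc ∏ k, Measure.pi (fun j => μ k j) {x : Fin n → ℝ | |∑ j, x j * u j - p k| ≤ t}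
      ≤ ∏ _k : Fin n, ENNReal.ofReal (K * (n * t)) := by
        apply Finset.prod_le_prod' 
        intro k _
        refine (row (fun j => μ k j) (hμ k) (fun j => u j) j0 hv (p k) ht).trans
          (ENNReal.ofReal_le_ofReal ?_)
        have : t / |u j0| ≤ n * t := by
          rw [div_le_iff₀ hv0]
          nlinarith
        gcongr
    _ = _ := by
        rw [Finset.prod_const, Finset.card_univ, Fintype.card_fin, ENNReal.ofReal_pow (by positivity)]

/-- Bounded entries give a bounded image. -/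
theorem lin_bound {n : ℕ} {ω : Fin n → Fin n → ℝ} {R : ℝ} (hR : 0 ≤ R) (hω : ∀ k j, |ω k j| ≤ R)
    (u : E n) : ‖lin ω u‖ ≤ R * n ^ 2 * ‖u‖ := by
  have h1 : ∀ k, |lin ω u k| ≤ R * n * ‖u‖ := by
    intro k
    rw [lin_apply]
    calc |∑ j, ω k j * u j| ≤ ∑ j, |ω k j * u j| := Finset.abs_sum_le_sum_abs _ _
      _ ≤ ∑ _j : Fin n, R * ‖u‖ := by
          apply Finset.sum_le_sum
          intro j _
          rw [abs_mul]
          have h2 := PiLp.norm_apply_le u j
          rw [Real.norm_eq_abs] at h2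
          exact mul_le_mul (hω k j) h2 (abs_nonneg _) hR
      _ = _ := by
          rw [Finset.sum_const, Finset.card_univ, Fintype.card_fin, nsmul_eq_mul]
          ring
  have h3 : ‖lin ω u‖ ≤ ∑ k, |lin ω u k| := by
    rw [EuclideanSpace.norm_eq]
    apply Real.sqrt_le_iff.2
    refine ⟨Finset.sum_nonneg (fun _ _ => abs_nonneg _), ?_⟩
    have := Finset.sum_sq_le_sq_sum_of_nonneg (s := (Finset.univ : Finset (Fin n)))
      (f := fun k => |lin ω u k|) (fun _ _ => abs_nonneg _)
    simpa [Real.norm_eq_abs] using this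
  calc ‖lin ω u‖ ≤ ∑ k, |lin ω u k| := h3
    _ ≤ ∑ _k : Fin n, R * n * ‖u‖ := Finset.sum_le_sum (fun k _ => h1 k)
    _ = _ := by
        rw [Finset.sum_const, Finset.card_univ, Fintype.card_fin, nsmul_eq_mul]
        ring

end Pool.Agent.Zk43.TW
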