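import Pool.Agent.Zk43.TW.Main
import Pool.Agent.Zk43.TW.Ex3
import Pool.Agent.Zk43.TW.Cov
set_option autoImplicit false

/-!
# Tubes with a random twist: from means to probabilities; uniform laws
-/

open MeasureTheory Set Metric
open scoped ENNReal NNReal

namespace Pool.Agent.Zk43.TW

open Pool.Agent.TH705.RR

theorem size_pow {n : ℕ} {ι : Type} [Fintype ι] (δ : ℝ) (b e : ι → E n) {q : ℝ} (hq : 0 < q) :
    eLpNorm (mu δ b e) (ENNReal.ofReal q) volume ^ q = F q δ b e :=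
  eLp_mu_pow δ (LinearIsometryEquiv.refl ℝ (E n)) b e hq

/-- From the mean to a large probability. -/
theorem markov {Ω : Type} [MeasurableSpace Ω] {P : Measure Ω} {X G : Ω → ℝ≥0∞} {q C t η : ℝ}
    (hq : 0 < q) (hC : 0 < C) (ht : 0 < t) (hη : 0 < η) (hG : Measurable G)
    (hXG : ∀ ω, X ω ^ q ≤ G ω) (hint : ∫⁻ ω, G ω ∂P ≤ ENNReal.ofReal (C * t ^ q)) :
    P {ω | ¬ X ω ≤ ENNReal.ofReal ((C / η) ^ (1 / q) * t)} ≤ ENNReal.ofReal η := by
  set b := (C / η) ^ (1 / q) * t with hb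
  have hb0 : 0 < b := by positivity
  have hbq : b ^ q = C / η * t ^ q := by
    rw [hb, Real.mul_rpow (by positivity) ht.le, ← Real.rpow_mul (by positivity), one_div,
      inv_mul_cancel₀ hq.ne', Real.rpow_one]
  have hbq0 : 0 < b ^ q := by positivity
  have hsub : {ω | ¬ X ω ≤ ENNReal.ofReal b} ⊆ {ω | ENNReal.ofReal (b ^ q) ≤ G ω} := by
    intro ω hω
    rw [mem_ofPred_eq, not_le] at hω
    rw [mem_ofPred_eq, ← ENNReal.ofReal_rpow_of_pos hb0]
    exact (ENNReal.rpow_le_rpow hω.le hq.le).trans (hXG ω)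
  refine (measure_mono hsub).trans ((meas_ge_le_lintegral_div hG.aemeasurable
    (ENNReal.ofReal_pos.2 hbq0).ne' ENNReal.ofReal_ne_top).trans ?_)
  rw [ENNReal.div_le_iff (ENNReal.ofReal_pos.2 hbq0).ne' ENNReal.ofReal_ne_top,
    ← ENNReal.ofReal_mul hη.le, hbq]
  refine hint.trans (le_of_eq ?_)
  congr 1
  field_simp

/-- Uniform distribution on `[0, c]`. -/
noncomputable def uni (c : ℝ) : Measure ℝ := ENNReal.ofReal (1 / c) • volume.restrict (Icc 0 c)

theorem uni_prob {c : ℝ} (hc : 0 < c) : IsProbabilityMeasure (uni c) := by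
  refine ⟨?_⟩
  unfold uni
  rw [Measure.smul_apply, Measure.restrict_apply_univ, Real.volume_Icc, smul_eq_mul,
    ← ENNReal.ofReal_mul (by positivity), sub_zero, one_div_mul_cancel hc.ne', ENNReal.ofReal_one]

theorem uni_spread {c : ℝ} (hc : 0 < c) (x r : ℝ) (hr : 0 < r) :
    uni c {t | |t - x| ≤ r} ≤ ENNReal.ofReal (2 / c * r) := by
  have h1 : {t : ℝ | |t - x| ≤ r} = Icc (x - r) (x + r) := by
    ext t
    rw [mem_ofPred_eq, abs_le, mem_Icc]
    constructor
    · rintro ⟨h1, h2⟩; constructor <;> linarith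
    · rintro ⟨h1, h2⟩; constructor <;> linarith
  unfold uni
  rw [Measure.smul_apply, smul_eq_mul]
  calc _ ≤ ENNReal.ofReal (1 / c) * volume {t : ℝ | |t - x| ≤ r} := by
        gcongr
        exact Measure.restrict_le_self
    _ = ENNReal.ofReal (1 / c) * ENNReal.ofReal (2 * r) := by
        rw [h1, Real.volume_Icc]
        congr 2
        ring
    _ = _ := by
        rw [← ENNReal.ofReal_mul (by positivity)]
        congr 1
        ring

theorem uni_supp {c : ℝ} (_hc : 0 < c) : uni c {t | ¬ (0 ≤ t ∧ t ≤ c)} = 0 := by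
  have h1 : {t : ℝ | ¬ (0 ≤ t ∧ t ≤ c)} = (Icc 0 c)ᶜ := rfl
  unfold uni
  rw [Measure.smul_apply, smul_eq_mul, h1, Measure.restrict_apply measurableSet_Icc.compl,
    compl_inter_self, measure_empty, mul_zero]

theorem pi_supp {n : ℕ} (μ : Fin n → Fin n → Measure ℝ)
    [∀ k j, IsProbabilityMeasure (μ k j)] {R : ℝ} (hsupp : ∀ k j, μ k j {t | ¬ |t| ≤ R} = 0) :
    Measure.pi (fun k => Measure.pi (fun j => μ k j)) {ω | ¬ ∀ k j, |ω k j| ≤ R} = 0 := by
  have h1 : {ω : Fin n → Fin n → ℝ | ¬ ∀ k j, |ω k j| ≤ R} ⊆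
      ⋃ k, ⋃ j, {ω : Fin n → Fin n → ℝ | ¬ |ω k j| ≤ R} := by
    intro ω hω
    rw [mem_ofPred_eq] at hω
    push Not at hω
    obtain ⟨k, j, h⟩ := hω
    exact mem_iUnion.2 ⟨k, mem_iUnion.2 ⟨j, not_le.2 h⟩⟩
  refine measure_mono_null h1 ?_
  rw [measure_iUnion_null_iff]
  intro k
  rw [measure_iUnion_null_iff]
  intro j
  have h2 : {ω : Fin n → Fin n → ℝ | ¬ |ω k j| ≤ R} =
      (fun ω => ω k) ⁻¹' ((fun x : Fin n → ℝ => x j) ⁻¹' {t | ¬ |t| ≤ R}) := rfl
  have hm : MeasurableSet {t : ℝ | ¬ |t| ≤ R} :=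
    (measurableSet_le measurable_id.abs measurable_const).compl
  rw [h2, (measurePreserving_eval (fun k => Measure.pi (fun j => μ k j)) k).measure_preimage
    ((measurable_pi_apply j) hm).nullMeasurableSet,
    (measurePreserving_eval (fun j => μ k j) j).measure_preimage hm.nullMeasurableSet]
  exact hsupp k j

end Pool.Agent.Zk43.TW
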