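import Pool.Agent.Zk43.TW.Core
set_option autoImplicit false

/-!
# Tubes with a random linear twist of the centres: the main estimate
-/

open MeasureTheory Set Metric
open scoped ENNReal NNReal

namespace Pool.Agent.Zk43.TW

open Pool.Agent.TH705.RR

/-- The `q`-th power of the norm. -/
noncomputable def F {n : ℕ} {ι : Type} [Fintype ι] (q δ : ℝ) (b e : ι → E n) : ℝ≥0∞ :=
  ∫⁻ x, (∑ i, (tube δ (b i) (e i)).indicator (1 : E n → ℝ≥0∞) x) ^ q

theorem det_bound {n : ℕ} {ι : Type} [Fintype ι] {q δ : ℝ} (b e : ι → E n) {u v : ℝ≥0∞}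
    (hpt : ∀ z : ℝ≥0∞, z ≤ Fintype.card ι → z ^ q ≤ u * z + v * (z * z)) :
    F q δ b e ≤ u * ∑ i, volume (tube δ (b i) (e i)) +
      v * ∑ i, ∑ j, volume (tube δ (b i) (e i) ∩ tube δ (b j) (e j)) := by
  have hm : ∀ i, MeasurableSet (tube δ (b i) (e i)) := fun i => (tube_closed _ _ _).measurableSet
  have hi : ∀ i, Measurable (fun x => (tube δ (b i) (e i)).indicator (1 : E n → ℝ≥0∞) x) :=
    fun i => measurable_one.indicator (hm i)
  have hS : Measurable (fun x => ∑ i, (tube δ (b i) (e i)).indicator (1 : E n → ℝ≥0∞) x) :=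
    Finset.measurable_sum _ (fun i _ => hi i)
  have hle : ∀ x, ∑ i, (tube δ (b i) (e i)).indicator (1 : E n → ℝ≥0∞) x ≤ Fintype.card ι := by
    intro x
    calc _ ≤ ∑ _i : ι, (1 : ℝ≥0∞) := by
          apply Finset.sum_le_sum
          intro i _
          exact indicator_le_self' (fun _ _ => zero_le) x |>.trans (le_of_eq rfl)
      _ = _ := by simp
  calc F q δ b e ≤ ∫⁻ x, (u * (∑ i, (tube δ (b i) (e i)).indicator (1 : E n → ℝ≥0∞) x) +
        v * ((∑ i, (tube δ (b i) (e i)).indicator (1 : E n → ℝ≥0∞) x) *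
          (∑ i, (tube δ (b i) (e i)).indicator (1 : E n → ℝ≥0∞) x))) := by
        apply lintegral_mono
        intro x
        exact hpt _ (hle x)
    _ = u * (∫⁻ x, (∑ i, (tube δ (b i) (e i)).indicator (1 : E n → ℝ≥0∞) x)) +
        v * (∫⁻ x, ((∑ i, (tube δ (b i) (e i)).indicator (1 : E n → ℝ≥0∞) x) *
          (∑ i, (tube δ (b i) (e i)).indicator (1 : E n → ℝ≥0∞) x))) := by
        have hSS : Measurable (fun x => (∑ i, (tube δ (b i) (e i)).indicator (1 : E n → ℝ≥0∞) x) *
          (∑ i, (tube δ (b i) (e i)).indicator (1 : E n → ℝ≥0∞) x)) := hS.mul hS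
        rw [lintegral_add_left (hS.const_mul _), lintegral_const_mul _ hS,
          lintegral_const_mul _ hSS]
    _ = _ := by
        congr 2
        · rw [lintegral_finsetSum _ (fun i _ => hi i)]
          apply Finset.sum_congr rfl
          intro i _
          exact lintegral_indicator_one (hm i)
        · have h1 : ∀ x, (∑ i, (tube δ (b i) (e i)).indicator (1 : E n → ℝ≥0∞) x) *
              (∑ i, (tube δ (b i) (e i)).indicator (1 : E n → ℝ≥0∞) x) =
              ∑ i, ∑ j, (tube δ (b i) (e i) ∩ tube δ (b j) (e j)).indicator (1 : E n → ℝ≥0∞) x := by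
            intro x
            rw [Finset.sum_mul_sum]
            apply Finset.sum_congr rfl
            intro i _
            apply Finset.sum_congr rfl
            intro j _
            by_cases h1 : x ∈ tube δ (b i) (e i) <;> by_cases h2 : x ∈ tube δ (b j) (e j) <;>
              simp [indicator, h1, h2]
          simp_rw [h1]
          have hij : ∀ i j, Measurable (fun x =>
              (tube δ (b i) (e i) ∩ tube δ (b j) (e j)).indicator (1 : E n → ℝ≥0∞) x) :=
            fun i j => measurable_one.indicator ((hm i).inter (hm j))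
          rw [lintegral_finsetSum _ (fun i _ => Finset.measurable_sum _ (fun j _ => hij i j))]
          apply Finset.sum_congr rfl
          intro i _
          rw [lintegral_finsetSum _ (fun j _ => hij i j)]
          apply Finset.sum_congr rfl
          intro j _
          exact lintegral_indicator_one ((hm i).inter (hm j))

/-- The sum over the angles. -/
theorem sum_yy {n : ℕ} (hn : 3 ≤ n) {β : ℝ} (hβ : 0 < β) (hβn : β < (n - 1 : ℕ)) :
    ∃ Ca : ℝ, 0 < Ca ∧ ∀ δ : ℝ, 0 < δ → δ < 1 → ∀ {ι : Type} [Fintype ι] (e : ι → E n),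
      (∀ i, ‖e i‖ = 1) → (∀ i j, i ≠ j → δ ≤ ‖e i - e j‖) → ∀ i : ι,
      ∑ j, (yy δ (e i) (e j)) ^ (-β) ≤
        Ca * (Fintype.card ι : ℝ) ^ (1 - β / ((n - 1 : ℕ) : ℝ)) := by
  obtain ⟨K, hK, hcount⟩ := count (n := n) (by omega)
  have h2 : (2 : ℝ) ^ (-(((n - 1 : ℕ) : ℝ) - β)) < 1 :=
    Real.rpow_lt_one_of_one_lt_of_neg (by norm_num) (by linarith)
  have h3 : 0 < 1 - (2 : ℝ) ^ (-(((n - 1 : ℕ) : ℝ) - β)) := by linarith
  refine ⟨1 + 2 ^ β * K * (1 / (1 - 2 ^ (-(((n - 1 : ℕ) : ℝ) - β)))), by positivity, ?_⟩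
  intro δ hδ hδ1 ι _ e he hsep i
  classical
  have hN1 : (1 : ℝ) ≤ Fintype.card ι := by
    have : Nonempty ι := ⟨i⟩
    exact_mod_cast Fintype.card_pos
  apply ang_sum Finset.univ (fun j => yy δ (e i) (e j)) (by linarith) hβ hβn hN1
  · rw [Finset.card_univ]
  · intro j _
    exact one_le_yy _ _ _
  · intro t ht
    have h4 := hcount δ hδ hδ1 e he hsep (e i) (he i)
      (Finset.univ.filter (fun j => yy δ (e i) (e j) ≤ t)) (t * δ) (by nlinarith) (by
        intro j hj
        rw [Finset.mem_filter] at hj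
        have h5 : sn (e i) (e j) / δ ≤ t := (le_max_right _ _).trans hj.2
        rwa [div_le_iff₀ hδ] at h5)
    rwa [mul_div_assoc, div_self hδ.ne', mul_one] at h4

/-- The main estimate, with a measurable majorant. -/
theorem main_gen {n : ℕ} (hn : 3 ≤ n) {s q : ℝ} (hs : 0 < s) (hsn : 1 + s ≤ (n : ℝ) - 1)
    (hq : 1 + 1 / (1 + s) < q) : ∃ C : ℝ, 0 < C ∧ ∀ K : ℝ, 0 ≤ K →
    ∀ (Ω : Type) [MeasurableSpace Ω] (P : Measure Ω) [IsProbabilityMeasure P]
    (A : Ω → E n → E n) (D : Set (E n)), Spread P A D K s →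
    ∀ δ : ℝ, 0 < δ → δ < 1 → ∀ (ι : Type) [Fintype ι] (a e : ι → E n), (∀ i, e i ∈ D) →
    (∀ i, ‖e i‖ = 1) → (∀ i j, i ≠ j → δ ≤ ‖e i - e j‖) →
    ∃ G : Ω → ℝ≥0∞, Measurable G ∧ (∀ ω, F q δ (fun i => a i + A ω (e i)) e ≤ G ω) ∧
      ∫⁻ ω, G ω ∂P ≤ ENNReal.ofReal (C * (1 + K) * δ ^ (n - 1) *
        (Fintype.card ι : ℝ) ^ (q - 1 / ((n : ℝ) - 1))) := by
  have hv := vb_pos n
  have hmr : ((n - 1 : ℕ) : ℝ) = (n : ℝ) - 1 := by
    rw [Nat.cast_sub (by omega)]; simp
  have hn1 : (2 : ℝ) ≤ (n : ℝ) - 1 := by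
    have : (3 : ℝ) ≤ n := by exact_mod_cast hn
    linarith
  have h1s : 0 < 1 + s := by linarith
  have hq1 : 1 < q := by
    have : 0 < 1 / (1 + s) := by positivity
    linarith
  -- the exponent
  obtain ⟨β, hβ0, hβs, hβn, hβ2⟩ : ∃ β : ℝ, 0 < β ∧ β ≤ 1 + s ∧ β < (n - 1 : ℕ) ∧
      ((q ≤ 2 ∧ β = 1 / (q - 1)) ∨ (2 < q ∧ β = 1)) := by
    rcases le_or_gt q 2 with h | h
    · have h1 : 1 / (q - 1) < 1 + s := by
        rw [div_lt_iff₀ (by linarith)]
        have h2 : 1 / (1 + s) < q - 1 := by linarith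
        rw [div_lt_iff₀ h1s] at h2
        linarith
      refine ⟨1 / (q - 1), ?_, h1.le, ?_, Or.inl ⟨h, rfl⟩⟩
      · have : 0 < q - 1 := by linarith
        positivity
      · rw [hmr]; linarith
    · exact ⟨1, one_pos, by linarith, by rw [hmr]; linarith, Or.inr ⟨h, rfl⟩⟩
  obtain ⟨Ca, hCa, hsum⟩ := sum_yy hn hβ0 hβn
  set c0 : ℝ := 4 * 2 ^ n * vb n with hc0
  set c1 : ℝ := 14 * 4 ^ n * vb n with hc1
  have hc00 : 0 < c0 := by positivity
  have hc10 : 0 < c1 := by positivity
  refine ⟨c0 + c1 * (1 + 2 ^ s) * Ca, by positivity, ?_⟩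
  intro K hK Ω _ P _ A D hsp δ hδ hδ1 ι _ a e heD he hsep
  classical
  rcases isEmpty_or_nonempty ι with hι | hι
  · refine ⟨fun _ => 0, measurable_const, ?_, by simp⟩
    intro ω
    unfold F
    simp [ENNReal.zero_rpow_of_pos (show 0 < q by linarith)]
  set N : ℝ := (Fintype.card ι : ℝ) with hN
  have hN1 : 1 ≤ N := by
    rw [hN]
    exact_mod_cast Fintype.card_pos
  have hN0 : 0 < N := by linarith
  set m : ℝ := ((n - 1 : ℕ) : ℝ) with hm
  have hm0 : 0 < m := by linarith
  -- the weights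
  obtain ⟨u, v, hu, hv', huv, hfin⟩ : ∃ u v : ℝ, 0 ≤ u ∧ 0 ≤ v ∧
      (∀ z : ℝ≥0∞, z ≤ Fintype.card ι → z ^ q ≤ ENNReal.ofReal u * z + ENNReal.ofReal v * (z * z)) ∧
      (u * N ≤ N ^ (q - 1 / m) ∧ v * (N * N ^ (1 - β / m)) ≤ N ^ (q - 1 / m)) := by
    rcases hβ2 with ⟨h, hβ⟩ | ⟨h, hβ⟩
    · set l : ℝ := N ^ (1 - β / m) with hl
      have hl0 : 0 < l := by positivity
      have hqm : (1 - β / m) * (q - 1) = q - 1 - 1 / m := by
        have : q - 1 ≠ 0 := by
          have : 0 < q - 1 := by linarith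
          exact this.ne'
        rw [hβ]
        field_simp
      refine ⟨l ^ (q - 1), l ^ (q - 2), by positivity, by positivity, ?_, ?_, ?_⟩
      · intro z _
        have h1 : z ^ q = z * z ^ (q - 1) := by
          have h2 : q = 1 + (q - 1) := by ring
          nth_rewrite 1 [h2]
          rw [ENNReal.rpow_add_of_nonneg _ _ zero_le_one (by linarith), ENNReal.rpow_one]
        have h3 := young (x := z) (l := ENNReal.ofReal l) (ENNReal.ofReal_pos.2 hl0).ne'
          ENNReal.ofReal_ne_top (p := q - 1) (by linarith) (by linarith)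
        rw [h1]
        calc z * z ^ (q - 1) ≤ z * (ENNReal.ofReal l ^ (q - 1) + ENNReal.ofReal l ^ (q - 1 - 1) * z) := by
              gcongr
          _ = ENNReal.ofReal l ^ (q - 1) * z + ENNReal.ofReal l ^ (q - 1 - 1) * (z * z) := by ring
          _ = _ := by
              rw [ENNReal.ofReal_rpow_of_pos hl0, ENNReal.ofReal_rpow_of_pos hl0,
                show q - 1 - 1 = q - 2 by ring]
      · apply le_of_eq
        rw [hl, ← Real.rpow_mul hN0.le, hqm]
        nth_rewrite 2 [← Real.rpow_one N]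
        rw [← Real.rpow_add hN0]
        congr 1
        ring
      · apply le_of_eq
        have h4 : l ^ (q - 2) * (N * N ^ (1 - β / m)) = l ^ (q - 1) * N := by
          rw [← hl, show q - 1 = (q - 2) + 1 by ring, Real.rpow_add hl0, Real.rpow_one]
          ring
        rw [h4, hl, ← Real.rpow_mul hN0.le, hqm]
        nth_rewrite 2 [← Real.rpow_one N]
        rw [← Real.rpow_add hN0]
        congr 1
        ring
    · refine ⟨0, N ^ (q - 2), le_rfl, by positivity, ?_, ?_, ?_⟩
      · intro z hz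
        rw [ENNReal.ofReal_zero, zero_mul, zero_add]
        have h2 : q = (q - 2) + 2 := by ring
        nth_rewrite 1 [h2]
        rw [ENNReal.rpow_add_of_nonneg _ _ (by linarith) (by norm_num),
          show (2 : ℝ) = ((2 : ℕ) : ℝ) by norm_num, ENNReal.rpow_natCast, sq]
        gcongr
        calc z ^ (q - ((2 : ℕ) : ℝ)) ≤ (Fintype.card ι : ℝ≥0∞) ^ (q - ((2 : ℕ) : ℝ)) :=
              ENNReal.rpow_le_rpow hz (by push_cast; linarith)
          _ = _ := by
              rw [← ENNReal.ofReal_natCast, ENNReal.ofReal_rpow_of_pos hN0]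
      · rw [zero_mul]
        positivity
      · apply le_of_eq
        rw [hβ]
        nth_rewrite 2 [← Real.rpow_one N]
        rw [← Real.rpow_add hN0, ← Real.rpow_add hN0]
        congr 1
        ring
  -- the majorant
  set w : ι → ι → ℝ := fun i j => c1 * δ ^ (n - 1) * (yy δ (e i) (e j))⁻¹ with hw
  have hy1 : ∀ i j, 1 ≤ yy δ (e i) (e j) := fun i j => one_le_yy _ _ _
  have hy0 : ∀ i j, 0 < yy δ (e i) (e j) := fun i j => by linarith [hy1 i j]
  have hw0 : ∀ i j, 0 ≤ w i j := fun i j => by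
    have := hy0 i j
    rw [hw]
    positivity
  set S : ι → ι → Set Ω := fun i j => toMeasurable P (Ev A δ (a i) (a j) (e i) (e j)) with hS
  have hSm : ∀ i j, MeasurableSet (S i j) := fun i j => measurableSet_toMeasurable _ _
  have hSi : ∀ i j, Measurable (fun ω => (S i j).indicator (1 : Ω → ℝ≥0∞) ω) :=
    fun i j => measurable_one.indicator (hSm i j)
  have hterm : ∀ i j, Measurable (fun ω => ENNReal.ofReal (w i j) *
      (S i j).indicator (1 : Ω → ℝ≥0∞) ω) := fun i j => (hSi i j).const_mul _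
  have hrow : ∀ i, Measurable (fun ω => ∑ j, ENNReal.ofReal (w i j) *
      (S i j).indicator (1 : Ω → ℝ≥0∞) ω) := fun i => Finset.measurable_sum _ (fun j _ => hterm i j)
  have hall : Measurable (fun ω => ∑ i, ∑ j, ENNReal.ofReal (w i j) *
      (S i j).indicator (1 : Ω → ℝ≥0∞) ω) := Finset.measurable_sum _ (fun i _ => hrow i)
  refine ⟨fun ω => ENNReal.ofReal u * ∑ _i : ι, ENNReal.ofReal (c0 * δ ^ (n - 1)) +
    ENNReal.ofReal v * ∑ i, ∑ j, ENNReal.ofReal (w i j) * (S i j).indicator (1 : Ω → ℝ≥0∞) ω,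
    measurable_const.add (hall.const_mul _), ?_, ?_⟩
  · intro ω
    refine (det_bound _ _ huv).trans (add_le_add (mul_le_mul_right (Finset.sum_le_sum ?_) _)
      (mul_le_mul_right (Finset.sum_le_sum ?_) _))
    · intro i _
      exact vol_tube (by omega) hδ hδ1 _ (he i)
    · intro i _
      apply Finset.sum_le_sum
      intro j _
      rcases (tube δ (a i + A ω (e i)) (e i) ∩ tube δ (a j + A ω (e j)) (e j)).eq_empty_or_nonempty
        with h0 | h0
      · rw [h0, measure_empty]
        exact zero_le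
      · have h1 : ω ∈ S i j := subset_toMeasurable _ _ (mem_ev h0)
        rw [indicator_of_mem h1, Pi.one_apply, mul_one]
        exact vol_inter (by omega) hδ hδ1 _ _ (he i) (he j)
  · rw [lintegral_add_left measurable_const, lintegral_const, measure_univ, mul_one,
      lintegral_const_mul _ hall, lintegral_finsetSum _ (fun i _ => hrow i)]
    have hI : ∀ i, ∫⁻ ω, ∑ j, ENNReal.ofReal (w i j) * (S i j).indicator (1 : Ω → ℝ≥0∞) ω ∂P ≤
        ENNReal.ofReal (c1 * δ ^ (n - 1) * (1 + K * 2 ^ s) * (Ca * N ^ (1 - β / m))) := by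
      intro i
      rw [lintegral_finsetSum _ (fun j _ => hterm i j)]
      calc ∑ j, ∫⁻ ω, ENNReal.ofReal (w i j) * (S i j).indicator (1 : Ω → ℝ≥0∞) ω ∂P
          ≤ ∑ j, ENNReal.ofReal (c1 * δ ^ (n - 1) * (1 + K * 2 ^ s) * (yy δ (e i) (e j)) ^ (-β)) := by
            apply Finset.sum_le_sum
            intro j _
            rw [lintegral_const_mul _ (hSi i j), lintegral_indicator_one (hSm i j),
              hS, measure_toMeasurable]
            calc _ ≤ ENNReal.ofReal (w i j) *
                  ENNReal.ofReal ((1 + K * 2 ^ s) * (yy δ (e i) (e j)) ^ (-s)) := by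
                  gcongr
                  exact prob_ev hs.le hK hsp hδ a e heD he hsep i j
              _ = ENNReal.ofReal (w i j * ((1 + K * 2 ^ s) * (yy δ (e i) (e j)) ^ (-s))) :=
                  (ENNReal.ofReal_mul (hw0 i j)).symm
              _ ≤ _ := by
                  apply ENNReal.ofReal_le_ofReal
                  have e1 : (yy δ (e i) (e j))⁻¹ * (yy δ (e i) (e j)) ^ (-s) =
                      (yy δ (e i) (e j)) ^ (-(1 + s)) := by
                    rw [← Real.rpow_neg_one, ← Real.rpow_add (hy0 i j)]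
                    congr 1
                    ring
                  have e2 : (yy δ (e i) (e j)) ^ (-(1 + s)) ≤ (yy δ (e i) (e j)) ^ (-β) :=
                    Real.rpow_le_rpow_of_exponent_le (hy1 i j) (by linarith)
                  calc w i j * ((1 + K * 2 ^ s) * (yy δ (e i) (e j)) ^ (-s)) =
                      c1 * δ ^ (n - 1) * (1 + K * 2 ^ s) *
                        ((yy δ (e i) (e j))⁻¹ * (yy δ (e i) (e j)) ^ (-s)) := by
                        rw [hw]; ring
                    _ ≤ _ := by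
                        rw [e1]
                        gcongr
        _ = ENNReal.ofReal (∑ j, c1 * δ ^ (n - 1) * (1 + K * 2 ^ s) * (yy δ (e i) (e j)) ^ (-β)) := by
            rw [ENNReal.ofReal_sum_of_nonneg]
            intro j _
            have := hy0 i j
            positivity
        _ ≤ _ := by
            apply ENNReal.ofReal_le_ofReal
            rw [← Finset.mul_sum]
            gcongr
            exact hsum δ hδ hδ1 e he hsep i
    calc _ ≤ ENNReal.ofReal u * ∑ _i : ι, ENNReal.ofReal (c0 * δ ^ (n - 1)) +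
          ENNReal.ofReal v * ∑ _i : ι,
            ENNReal.ofReal (c1 * δ ^ (n - 1) * (1 + K * 2 ^ s) * (Ca * N ^ (1 - β / m))) := by
          gcongr with i _
          exact hI i
      _ = ENNReal.ofReal (u * (N * (c0 * δ ^ (n - 1))) +
          v * (N * (c1 * δ ^ (n - 1) * (1 + K * 2 ^ s) * (Ca * N ^ (1 - β / m))))) := by
          rw [Finset.sum_const, Finset.sum_const, nsmul_eq_mul, nsmul_eq_mul, Finset.card_univ,
            ← ENNReal.ofReal_natCast, ← hN, ← ENNReal.ofReal_mul hN0.le, ← ENNReal.ofReal_mul hN0.le,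
            ← ENNReal.ofReal_mul hu, ← ENNReal.ofReal_mul hv',
            ← ENNReal.ofReal_add (by positivity) (by positivity)]
      _ ≤ _ := by
          apply ENNReal.ofReal_le_ofReal
          have hm' : m = (n : ℝ) - 1 := hmr
          rw [← hm']
          set W := N ^ (q - 1 / m) with hW
          have hW0 : 0 < W := by positivity
          have f1 : u * (N * (c0 * δ ^ (n - 1))) ≤ c0 * δ ^ (n - 1) * W := by
            calc u * (N * (c0 * δ ^ (n - 1))) = c0 * δ ^ (n - 1) * (u * N) := by ring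
              _ ≤ _ := by
                  gcongr
                  exact hfin.1
          have f2 : v * (N * (c1 * δ ^ (n - 1) * (1 + K * 2 ^ s) * (Ca * N ^ (1 - β / m)))) ≤
              c1 * δ ^ (n - 1) * (1 + K * 2 ^ s) * Ca * W := by
            calc _ = c1 * δ ^ (n - 1) * (1 + K * 2 ^ s) * Ca * (v * (N * N ^ (1 - β / m))) := by ring
              _ ≤ _ := by
                  gcongr
                  exact hfin.2
          have f3 : 1 + K * 2 ^ s ≤ (1 + 2 ^ s) * (1 + K) := by
            have : (0 : ℝ) < 2 ^ s := by positivity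
            nlinarith
          calc _ ≤ c0 * δ ^ (n - 1) * W + c1 * δ ^ (n - 1) * (1 + K * 2 ^ s) * Ca * W := add_le_add f1 f2
            _ ≤ c0 * (1 + K) * δ ^ (n - 1) * W + c1 * δ ^ (n - 1) * ((1 + 2 ^ s) * (1 + K)) * Ca * W := by
                gcongr
                nlinarith
            _ = _ := by ring

end Pool.Agent.Zk43.TW
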